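import Pool.Agent.Q183.UH.Fin3

/-!
# Uniform boundedness of the rational points in finite recurrent sequences

Let `X` be a closed subvariety of projective `N`-space over a field `K` of characteristic zero (for
instance `ℚ`), given by forms of degree at most `D`, for example a curve of genus at least one.
A finite sequence `P 0, ..., P (l - 1)` of points of `X` over an extension field `L` is called
recurrent of order `R` and degree `d` if it has homogeneous coordinates each of which satisfies a
linear recurrence of order at most `R` whose coefficients are polynomials of degree at most `d` in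
the index, and such that the first and the last coefficient do not vanish at the indices at which the
recurrence holds.

There are numbers `M ≥ 1` and `C` which depend only on `N`, `D`, `R` and `d` such that the following
are equivalent:

(a) `X` contains no rational curve over the extension fields of `K`;

(b) for all `R` and `d`, all extension fields `L` of `K`, all lengths `l` and all finite sequences
`P 0, ..., P (l - 1)` of points of `X` over `L` which are recurrent of order `R` and degree `d`,
`P (t + M) = P t` for all `t` with `C ≤ t ≤ l - M - C`;

(c) all these sequences have at most `M + 2 C` different elements;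

(d) for each finite extension `L` of `K` and each `R`, the number of different elements of the
sequences of points of `X` over `L` which are recurrent of order `R` and degree `0` is bounded.
-/

set_option autoImplicit false

namespace Pool.Agent.Results.MP_10e784_ag.FiniteRecurrences

open MvPolynomial Pool.Agent.Q183.UH
open scoped LinearAlgebra.Projectivization

variable {N : ℕ} {K : Type} [Field K]

/-- The maps over `E` from the projective line to the variety of the forms in `FF`, given by
polynomials, are constant. -/
def NoRationalCurve (FF : Set (MvPolynomial (Fin (N + 1)) K)) (E : Type) [Field E] [Algebra K E] :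
    Prop :=
  ∀ p : Fin (N + 1) → Polynomial E, (∀ F ∈ FF, aeval p F = 0) →
    ∀ i j m n, (p i).coeff m * (p j).coeff n = (p j).coeff m * (p i).coeff n

theorem result (N D : ℕ) : ∃ M C : ℕ → ℕ → ℕ, (∀ R d, 0 < M R d) ∧
    ∀ (K : Type) [Field K] [CharZero K] (FF : Set (MvPolynomial (Fin (N + 1)) K)),
      (∀ F ∈ FF, ∃ e, e ≤ D ∧ F.IsHomogeneous e) →
      [∀ (E : Type) [Field E] [Algebra K E], NoRationalCurve FF E,
       ∀ (L : Type) [Field L] [Algebra K L] (R d l : ℕ) (P : ℕ → ℙ L (Fin (N + 1) → L)),
        FinPoints FF L R d l P → ∀ t, C R d ≤ t → t + M R d + C R d ≤ l → P (t + M R d) = P t,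
       ∀ (L : Type) [Field L] [Algebra K L] (R d l : ℕ) (P : ℕ → ℙ L (Fin (N + 1) → L)),
        FinPoints FF L R d l P → (P '' {t | t < l}).encard ≤ (M R d + 2 * C R d : ℕ),
       ∀ (L : Type) [Field L] [Algebra K L] [FiniteDimensional K L] (R : ℕ), ∃ B : ℕ,
        ∀ (l : ℕ) (P : ℕ → ℙ L (Fin (N + 1) → L)), FinPoints FF L R 0 l P →
        (P '' {t | t < l}).encard ≤ B].TFAE := by
  obtain ⟨M, C, hM, h⟩ := fin_tfae N D
  refine ⟨M, C, hM, fun K _ _ FF hFF => ?_⟩
  have hno : ∀ (E : Type) [Field E] [Algebra K E], RatIn FF {1} E ↔ NoRationalCurve FF E := by
    intro E _ _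
    constructor
    · intro h p hp
      rcases h p hp with h1 | h1
      · exact h1
      · have h2 := h1 1 rfl
        rw [map_one] at h2
        exact absurd h2 one_ne_zero
    · intro h p hp
      exact Or.inl (h p hp)
  have hZ : ∀ {L : Type} [Field L] [Algebra K L] (P : ℙ L (Fin (N + 1) → L)),
      ¬ InZ ({1} : Set (MvPolynomial (Fin (N + 1)) K)) P := by
    intro L _ _ P hP
    have h2 := hP 1 rfl
    rw [map_one] at h2
    exact one_ne_zero h2
  have hT := h K FF {1} hFF (fun G hG => ⟨0, Nat.zero_le _, by
    rw [Set.mem_singleton_iff.1 hG]
    exact isHomogeneous_one _ _⟩)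
  have h12 : (∀ (E : Type) [Field E] [Algebra K E], RatIn FF {1} E) ↔
      ∀ (E : Type) [Field E] [Algebra K E], NoRationalCurve FF E :=
    forall_congr' fun E => forall_congr' fun _ => forall_congr' fun _ => hno E
  have h13 := hT.out 0 2
  have h14 := hT.out 0 3
  have h15 := hT.out 0 4
  tfae_have 1 ↔ 2 := by
    rw [← h12, h13]
    simp only [hZ, false_and, or_false]
  tfae_have 1 ↔ 3 := by
    rw [← h12, h14]
    simp only [hZ, not_false_iff, and_true]
  tfae_have 1 ↔ 4 := by
    rw [← h12, h15]
    simp only [hZ, not_false_iff, and_true]
  tfae_finish

end Pool.Agent.Results.MP_10e784_ag.FiniteRecurrences
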