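import Mathlib
import Pool.Agent.Q29.TW.PtsT
import Pool.Agent.Q29.TW.ThueCount

/-!
# Points with few digits on the twists `Φ(x, y) = d(t)` of smooth plane curves

Let `n ≥ 5`. We consider over a number field `K` the smooth plane curves of genus
`(n - 1)(n - 2)/2`

  `Φ(x, y) = d(t) z^n`,

where `Φ` is a binary form of degree `n` with nonzero discriminant (for example the twisted Fermat
curves `x^n + y^n = d(t) z^n`), `d` is a nonconstant squarefree polynomial and `t` any element of
`K` with `d(t) ≠ 0`.

We bound the number of the points `(x, y) = (u/w, v/w)` over `K`, where the vector `(u, v, w)` is a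
sum of `r` terms `v_l t^(m_l) ∏_i F_i(t)^(e_il)` (`v_l` vectors of integers of `K` of house at most
`H`, arbitrary exponents `m_l`, any number of polynomials `F_i` of total degree at most `D` with
integral coefficients of house at most `H` whose constant terms are roots of unity, `∑_i e_il ≤ N`
for all `l`), provided the absolute height of `t` is at least `(C H N) ^ C`, with `C` depending only
on `n`, `r`, `D` and `deg d`. The bound is

  `n ^ (2 ⌊((n - 1) deg d - (n + 1)) / (n (n - 3))⌋ + 2)`;

it is independent of the curve, of `t`, of `K`, of `r`, `N` and `H`. If `deg d ≤ n - 2`, then there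
are no such points at all.
-/

set_option autoImplicit false

namespace Pool.Agent.Results.MP_10e784_ag.PlaneTwistsWithFewDigits

open Polynomial NumberField

section defs

/-- Vectors `p` of three polynomials of the form `p = ∑ v_l X^(m_l) ∏_i F_i^(e_il)`, `r` terms,
where the `v_l` are vectors of integers of `K` of house at most `H`, the exponents `m_l` are
arbitrary, the `F_i` (any number of them) are polynomials of total degree at most `D` with integral
coefficients of house at most `H` whose constant terms are roots of unity, and `∑_i e_il ≤ N` for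
each `l`. (`house` is the largest absolute value of the conjugates.) -/
def PowerVec {K : Type} [Field K] [NumberField K] (r D N : ℕ) (H : ℝ)
    (p : Fin 3 → (𝓞 K)[X]) : Prop :=
  ∃ (q : ℕ) (F : Fin q → (𝓞 K)[X]) (m : Fin r → ℕ) (e : Fin r → Fin q → ℕ)
    (v : Fin r → Fin 3 → 𝓞 K), ∑ i, (F i).natDegree ≤ D ∧
    (∀ i, ∃ j, 0 < j ∧ (F i).coeff 0 ^ j = 1) ∧
    (∀ i j, house (algebraMap (𝓞 K) K ((F i).coeff j)) ≤ H) ∧
    (∀ l, ∑ i, e l i ≤ N) ∧ (∀ l i, house (algebraMap (𝓞 K) K (v l i)) ≤ H) ∧
    ∀ i, p i = ∑ l, C (v l i) * (X ^ m l * ∏ j, F j ^ e l j)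

/-- The value at `(x, y)` of the binary form `Φ = ∑_{i ≤ n} f_i X^i Y^(n - i)` of degree `n`; `f_i`
are the coefficients of the polynomial `f`. -/
noncomputable def form {K : Type} [Field K] [NumberField K] (n : ℕ) (f : (𝓞 K)[X]) (x y : K) : K :=
  ∑ i ∈ Finset.range (n + 1), algebraMap (𝓞 K) K (f.coeff i) * x ^ i * y ^ (n - i)

/-- The points `(x, y)` over `K` of the curve `Φ(x, y) = d(t)` with `x = u/w` and `y = v/w`, where
`(u, v, w) = p(t)` for a vector `p` as above. -/
def points {K : Type} [Field K] [NumberField K] (n : ℕ) (f d : (𝓞 K)[X]) (t : K) (r D N : ℕ)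
    (H : ℝ) : Set (K × K) :=
  {q | form n f q.1 q.2 = aeval t d ∧ ∃ p : Fin 3 → (𝓞 K)[X], PowerVec r D N H p ∧
    aeval t (p 2) ≠ 0 ∧ q.1 = aeval t (p 0) / aeval t (p 2) ∧
    q.2 = aeval t (p 1) / aeval t (p 2)}

/-- The absolute multiplicative height of `t` is at least `(C H N) ^ C`. (`Height.mulHeight₁ t` is
the height relative to `K`, the power with exponent `[K : ℚ]` of the absolute height; for `K = ℚ` it
is the maximum of the absolute values of numerator and denominator.) -/
def Large {K : Type} [Field K] [NumberField K] (C N : ℕ) (H : ℝ) (t : K) : Prop :=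
  ((C * (H * N)) ^ C) ^ Module.finrank ℚ K ≤ Height.mulHeight₁ t

end defs

/-- The condition `n - 1 ≤ deg f ≤ n` and `f` separable means that the form has nonzero
discriminant. -/
theorem result (n r D D' : ℕ) (hn : 5 ≤ n) :
    ∃ C : ℕ, ∀ (K : Type) [Field K] [NumberField K] (H : ℝ) (N : ℕ) (t : K),
      1 ≤ H → 1 ≤ N → Large C N H t →
      ∀ f d : (𝓞 K)[X], f.natDegree ≤ n → n - 1 ≤ f.natDegree →
        (f.map (algebraMap (𝓞 K) K)).Separable → Squarefree (d.map (algebraMap (𝓞 K) K)) →
        1 ≤ d.natDegree → d.natDegree ≤ D' →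
        (∀ i, house (algebraMap (𝓞 K) K (f.coeff i)) ≤ H) →
        (∀ i, house (algebraMap (𝓞 K) K (d.coeff i)) ≤ H) → aeval t d ≠ 0 →
        (points n f d t r D N H).Finite ∧
        (points n f d t r D N H).ncard ≤
          n ^ (2 * (((n - 1) * d.natDegree - (n + 1)) / (n * (n - 3))) + 2) ∧
        (d.natDegree ≤ n - 2 → points n f d t r D N H = ∅) := by
  obtain ⟨m, rfl⟩ : ∃ m, n = m + 3 := ⟨n - 3, by omega⟩
  refine ⟨Pool.Agent.Q29.TW.Cst r D D' (m + 3 + 1) (m + 3 + 2), ?_⟩
  intro K _ _ H N t hH hN ht f d hf hf' hsep hsq hd1 hdD hfH hdH hdt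
  have hinj : Function.Injective (algebraMap (𝓞 K) K) := FaithfulSMul.algebraMap_injective _ _
  have hnf : (f.map (algebraMap (𝓞 K) K)).natDegree = f.natDegree :=
    natDegree_map_eq_of_injective hinj f
  have hnd : (d.map (algebraMap (𝓞 K) K)).natDegree = d.natDegree :=
    natDegree_map_eq_of_injective hinj d
  have hev : ∀ (p : (𝓞 K)[X]) (x : K), (p.map (algebraMap (𝓞 K) K)).eval x = aeval x p :=
    fun p x => eval_map_algebraMap p x
  have hco : (f.map (algebraMap (𝓞 K) K)).coeff =
      fun i => algebraMap (𝓞 K) K (f.coeff i) := by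
    funext i
    rw [coeff_map]
  have h := Pool.Agent.Q29.TW.count_thue m (by omega) (f.map (algebraMap (𝓞 K) K)) (by omega)
    (by omega) hsep hsq (by omega) t (by rw [hev]; exact hdt) (points (m + 3) f d t r D N H) (by
      rintro ⟨x, y⟩ ⟨hxy, p, hp, hw, hx, hy⟩
      simp only at hxy hx hy
      have hform : Pool.Agent.Q29.TW.hm (m + 3) (f.map (algebraMap (𝓞 K) K)).coeff x y =
          aeval t d := by
        rw [hco]
        exact hxy
      refine ⟨by rw [hev]; exact hform, (p 0).map (algebraMap (𝓞 K) K),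
        (p 1).map (algebraMap (𝓞 K) K), (p 2).map (algebraMap (𝓞 K) K), by rw [hev]; exact hw,
        by rw [hev, hev]; exact hx, by rw [hev, hev]; exact hy, ?_⟩
      refine Pool.Agent.Q29.TW.lift_t (m + 3) hN hH ht f d hfH hdD hdH p hp ?_
      rw [← hco]
      have e1 : aeval t (p 0) = aeval t (p 2) * x := by rw [hx]; field_simp
      have e2 : aeval t (p 1) = aeval t (p 2) * y := by rw [hy]; field_simp
      rw [e1, e2, Pool.Agent.Q29.TW.hm_mul, hform]
      ring)
  rw [hnd] at h
  have e1 : m + 3 - 1 = m + 2 := by omega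
  have e2 : m + 3 + 1 = m + 4 := by omega
  have e3 : m + 3 - 3 = m := by omega
  have e4 : m + 3 - 2 = m + 1 := by omega
  rw [e1, e2, e3, e4]
  exact ⟨h.1.1, h.1.2, h.2⟩

end Pool.Agent.Results.MP_10e784_ag.PlaneTwistsWithFewDigits
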