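import Mathlib
import Pool.Agent.Q204.UF.Gen

set_option autoImplicit false

/-!
# Points that are sums of units on ALL curves: heights and numbers, uniformly in the curve

Let `d 1, …, d q` be degrees and `r` a number. There are `E` and `ε > 0` such that for every finitely
generated group `Γ` of algebraic numbers there are constants `A`, `e` with the following properties,
for ALL closed subsets `X = {F = 0}` of projective `n`-space, `F i` a form of degree `d i` with
algebraic coefficients, which do not contain rational curves of degree at most `E`. For example `X`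
may be any curve of genus at least `1` in a projective embedding of given degree, and every curve of
genus `g ≥ 2` has such an embedding (the tricanonical one: `n = 5 g - 6`, all `d i = 2`).

* (heights) all algebraic points `∑ u j V j` (`j < r`) of `X`, of any degree, where the `u j` have a
  power in `Γ` and the `V j` are any vectors of algebraic numbers, have height at most
  `A (1 + h(F) + h(V))`;
* (numbers) there are at most `A (1 + h(F) + h(V)) ^ e` points `∑ u j s j V j` on `X` for which the
  `u j` have a power in `Γ` and the height of the point `s` is less than `ε`.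

So both the heights and the number are bounded uniformly in the curve `X`, in terms of the height of
its equations, over all number fields at the same time.
-/

namespace Pool.Agent.Results.MP_10e784_ag.SumsOnAllCurves

open MvPolynomial
open scoped LinearAlgebra.Projectivization
open Pool.Agent.Helper259.AbsHt

/-- The algebraic numbers. -/
abbrev Qbar : Type := AlgebraicClosure ℚ

/-- The indices of the coefficients of `q` forms of degrees `d i` in `n + 1` variables. -/
abbrev Index (n : ℕ) {q : ℕ} (d : Fin q → ℕ) : Type :=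
  (i : Fin q) × {α : Fin (n + 1) →₀ ℕ // α.degree = d i}

instance finite_index {n q : ℕ} (d : Fin q → ℕ) : Finite (Index n d) :=
  Pool.Agent.Q51.UF.finite_CI d

/-- The height `h(F)`: the absolute logarithmic height of the point with the projective coordinates
`1` and the coefficients of the forms `F i`. -/
noncomputable def formsHeight {n q : ℕ} (d : Fin q → ℕ)
    (F : Fin q → MvPolynomial (Fin (n + 1)) Qbar) : ℝ :=
  absLogHeight (fun o : Option (Index n d) => o.elim (1 : Qbar) (fun x => coeff x.2.1 (F x.1)))

/-- The height `h(V)`: the absolute logarithmic height of the point with the projective coordinates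
`V j i`. -/
noncomputable def vectorsHeight {n r : ℕ} (V : Fin r → Fin (n + 1) → Qbar) : ℝ :=
  absLogHeight (fun p : Fin r × Fin (n + 1) => V p.1 p.2)

/-- The closed subset `F = 0` of projective space contains no rational curve of degree at most `E`:
every map `p` to it given by polynomials of degree at most `E` is constant. -/
def NoRationalCurve {n q : ℕ} (E : ℕ) (F : Fin q → MvPolynomial (Fin (n + 1)) Qbar) : Prop :=
  ∀ p : Fin (n + 1) → Polynomial Qbar, (∀ a, (p a).natDegree ≤ E) → (∀ i, aeval p (F i) = 0) →
    ∀ (s t : Qbar) (a b : Fin (n + 1)),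
      (p a).eval s * (p b).eval t = (p b).eval s * (p a).eval t

/-- The points of `F = 0` with the coordinates `∑ u j s j V j`, where the `u j` have a power in `Γ`
and the height of the point with the projective coordinates `s j` is less than `ε`. -/
def nearPoints {n q r : ℕ} (F : Fin q → MvPolynomial (Fin (n + 1)) Qbar) (Γ : Subgroup Qbarˣ)
    (ε : ℝ) (V : Fin r → Fin (n + 1) → Qbar) : Set (ℙ Qbar (Fin (n + 1) → Qbar)) :=
  {P | ∃ (u : Fin r → Qbarˣ) (s : Fin r → Qbar) (h : (fun i => ∑ j, (u j : Qbar) * s j * V j i) ≠ 0),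
    (∀ j, ∃ m : ℕ, 0 < m ∧ u j ^ m ∈ Γ) ∧ absLogHeight s < ε ∧ P = Projectivization.mk Qbar _ h ∧
      ∀ c, aeval (fun i => ∑ j, (u j : Qbar) * s j * V j i) (F c) = 0}

theorem not_onRat {n q : ℕ} (E : ℕ) (F : Fin q → MvPolynomial (Fin (n + 1)) Qbar)
    (h : NoRationalCurve E F) (x : Fin (n + 1) → Qbar) : ¬ Pool.Agent.Q204.UF.OnRat E F x := by
  rintro ⟨p, hdeg, hz, ⟨c, hc, hx⟩, a, b, hne⟩
  apply hne
  refine Polynomial.funext fun t => ?_
  have h1 := h p hdeg hz t 1 a b
  rw [hx, hx] at h1
  rw [Polynomial.eval_mul, Polynomial.eval_mul, Polynomial.eval_C, Polynomial.eval_C]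
  refine mul_left_cancel₀ hc ?_
  linear_combination h1

/-- **Main theorem.** For all degrees `d i` and all `r` there are `E` and `ε > 0`, and for every
finitely generated group `Γ` of algebraic numbers there are `A` and `e`, such that for ALL forms `F i`
of degrees `d i` with algebraic coefficients for which `F = 0` contains no rational curve of degree at
most `E`, and all vectors `V j` of algebraic numbers: the algebraic points `x = ∑ u j V j` of
`F = 0`, where the `u j` have a power in `Γ`, satisfy `h(x) ≤ A (1 + h(F) + h(V))`, and there are at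
most `A (1 + h(F) + h(V)) ^ e` points in `nearPoints F Γ ε V`. -/
theorem result (n : ℕ) {q : ℕ} (d : Fin q → ℕ) (r : ℕ) :
    ∃ (E : ℕ) (ε : ℝ), 0 < ε ∧ ∀ Γ : Subgroup Qbarˣ, Γ.FG → ∃ (A : ℝ) (e : ℕ),
      ∀ (F : Fin q → MvPolynomial (Fin (n + 1)) Qbar) (V : Fin r → Fin (n + 1) → Qbar),
        (∀ i, (F i).IsHomogeneous (d i)) → NoRationalCurve E F →
        (∀ u : Fin r → Qbarˣ, (∀ j, ∃ m : ℕ, 0 < m ∧ u j ^ m ∈ Γ) →
          (fun i => ∑ j, (u j : Qbar) * V j i) ≠ 0 →
          (∀ c, aeval (fun i => ∑ j, (u j : Qbar) * V j i) (F c) = 0) →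
          absLogHeight (fun i => ∑ j, (u j : Qbar) * V j i) ≤
            A * (1 + formsHeight d F + vectorsHeight V)) ∧
        (nearPoints F Γ ε V).Finite ∧
        ((nearPoints F Γ ε V).ncard : ℝ) ≤ A * (1 + formsHeight d F + vectorsHeight V) ^ e := by
  classical
  obtain ⟨D, hD1, hdD⟩ : ∃ D : ℕ, 1 ≤ D ∧ ∀ i, d i ≤ D := ⟨∑ i, d i + 1, by omega, fun i =>
    (Finset.single_le_sum (f := d) (fun _ _ => Nat.zero_le _) (Finset.mem_univ i)).trans
      (Nat.le_succ _)⟩
  refine ⟨Pool.Agent.Q204.UF.expB D r, Pool.Agent.Y215.SP.epsn ((D + 1) ^ r) / D / 2,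
    half_pos (div_pos (Pool.Agent.Y215.SP.epsn_pos _ (Nat.one_le_pow _ _ (by omega)))
      (by exact_mod_cast hD1)), fun Γ hΓ => ?_⟩
  obtain ⟨C, hC0, hC⟩ := Pool.Agent.Q204.UF.gen_heights (n := n) (r := r) d D hD1 hdD Γ hΓ
  obtain ⟨B, e, hB0, hB⟩ := Pool.Agent.Q204.UF.gen_near (n := n) (r := r) d D hD1 hdD Γ hΓ
  refine ⟨max C B, e, fun F V hF hno => ?_⟩
  have hF0 : 0 ≤ formsHeight d F := absLogHeight_nonneg _
  have hV0 : 0 ≤ vectorsHeight V := absLogHeight_nonneg _
  refine ⟨fun u hu hx0 hx => ?_, ?_⟩
  · refine (hC F u V hF hu hx0 hx fun l hl hcur => ?_).trans ?_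
    · exact not_onRat _ F hno _ (Pool.Agent.Q204.UF.onRat_of_curve _ F _ l hl
        (fun a => ∑ j, (u j : Qbar) * V j a) 1 one_ne_zero (fun a => (one_mul _).symm) hcur)
    · exact mul_le_mul_of_nonneg_right (le_max_left _ _) (by
        change 0 ≤ 1 + formsHeight d F + vectorsHeight V
        linarith)
  · obtain ⟨hfin, hcard⟩ := hB F V hF
    have hsub : nearPoints F Γ (Pool.Agent.Y215.SP.epsn ((D + 1) ^ r) / D / 2) V ⊆
        Pool.Agent.Q204.UF.nearP F Γ (Pool.Agent.Y215.SP.epsn ((D + 1) ^ r) / D / 2) V := by
      refine subset_trans ?_ (Pool.Agent.Q204.UF.nearR_sub D hD1 F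
        (fun i => ⟨d i, hdD i, hF i⟩) Γ _ V)
      rintro P ⟨u, s, h0, hu, hs, rfl, hx⟩
      exact ⟨u, s, hu, hs, hx, not_onRat _ F hno _, h0, rfl⟩
    refine ⟨hfin.subset hsub, ?_⟩
    have h3 := Set.ncard_le_ncard hsub hfin
    refine le_trans (by exact_mod_cast h3) (hcard.trans ?_)
    exact mul_le_mul_of_nonneg_right (le_max_right _ _) (pow_nonneg (by
      change 0 ≤ 1 + formsHeight d F + vectorsHeight V
      linarith) _)

end Pool.Agent.Results.MP_10e784_ag.SumsOnAllCurves
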