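import Pool.Agent.Q138.PS.TT
import Pool.Agent.Results.MP_10e784_ag.TwistsWithTrivialPoints
import Pool.Agent.Results.MP_10e784_ag.TwistsWithMixedFactors

/-!
# The number of rational points of the twists by the integers `± ⌊α P(n)⌋` of curves of every genus

Let `q ≥ 2`. Outside a set of real numbers of Hausdorff dimension at most `q / (q + 1 / (q 2 ^ (q - 1)))` (that is
`8 / 9` for `q = 2`) every `α > 0` has the following property, for ALL integral polynomials `P` of degree `q` with positive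
leading coefficient and coefficients of size at most `N ^ η`. Let `d` be the squarefree part of `± ⌊α P(n)⌋`. For all but
`O (N / (log N) ^ (1 / 5))` of the `n ≤ N` the curve `d y² = x (x² - 1) (x² - 9) ⋯ (x² - 9 ^ (g - 1))`, `g ≥ 3`, of genus `g`
has exactly `2 g + 2` rational points (with the one at infinity), and similarly for other curves.
-/

set_option autoImplicit false

open Finset Filter Topology MeasureTheory Polynomial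
open Pool.Agent.Q138.PS

namespace Pool.Agent.Results.MP_10e784_ag.TwistsByRealMultiples

open Pool.Agent.Results.MP_10e784_ag.TwistsWithTrivialPoints (GenSet FermatSet)
open Pool.Agent.Results.MP_10e784_ag.TwistsWithMixedFactors (Factors General Point Const hom)

open Classical in
/-- the number of the pairs of an integer `1 ≤ n ≤ N` and a sign `s` for which `s ⌊α P(n)⌋ = d m²` with a squarefree
number `d` which has the property `Z` -/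
noncomputable def count (α : ℝ) (P : ℤ[X]) (N : ℕ) (Z : ℤ → Prop) : ℕ :=
  ((Icc 1 N ×ˢ ({1, -1} : Finset ℤ)).filter fun x : ℕ × ℤ =>
    ∃ (d : ℤ) (m : ℕ), Squarefree d ∧ 1 ≤ m ∧ d * (m : ℤ) ^ 2 = x.2 * (⌊α * ((P.eval (x.1 : ℤ) : ℤ) : ℝ)⌋₊ : ℤ) ∧
      Z d).card

/-- the squarefree part of `± ⌊α P(n)⌋` has the property `Z` for at most `C N / (log N) ^ δ` of the `n ≤ N`, uniformly
in the polynomials `P` of degree `q` with positive leading coefficient and coefficients of size at most `N ^ η` -/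
def Few (q : ℕ) (α δ : ℝ) (Z : ℤ → Prop) : Prop :=
  ∃ η C : ℝ, 0 < η ∧ ∀ᶠ N : ℕ in atTop, ∀ P : ℤ[X], P.natDegree = q → 0 < P.leadingCoeff →
    (∀ j, |((P.coeff j : ℤ) : ℝ)| ≤ (N : ℝ) ^ η) → (count α P N Z : ℝ) ≤ C * N * (Real.log N) ^ (-δ)

theorem countable_pol : Countable ℤ[X] :=
  Cardinal.mk_le_aleph0_iff.1 (by
    refine (Polynomial.cardinalMk_le_max (R := ℤ)).trans ?_
    simp)

/-- **Theorem.** Let `q ≥ 2`. There is a set `E` of Hausdorff dimension at most `q / (q + 1 / (q 2 ^ (q - 1)))` such that for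
each `α > 0` outside `E`, with `d` the squarefree part of `± ⌊α P(n)⌋`, `n ≤ N`, uniformly in `P`:
(1) if `A` is a generic set of `2 g + 1 ≥ 7` integers with many arithmetic progressions, for instance the set of the
zeros of `x (x² - 1) ⋯ (x² - 9 ^ (g - 1))`, or `0, ..., 2 g` for `g ≥ 4`, then `d y² = ∏ a ∈ A, (x - a)` has exactly `2 g + 1`
affine rational points for all but `O (N / (log N) ^ (1 / 5))` pairs `(n, ±)`;
(2) for mixed factors, all rational points with `y ≠ 0` are of constant type, and there are none at all if the constant type is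
finite or no factor is linear, for all but `O (N / (log N) ^ δ)` pairs;
(3) `d y² = x⁵ - x` has exactly three affine rational points for all but `O (N / (log N) ^ δ)` pairs. -/
theorem result (q : ℕ) (hq : 2 ≤ q) :
    ∃ E : Set ℝ, dimH E ≤ ENNReal.ofReal ((q : ℝ) / (q + 1 / (q * 2 ^ (q - 1)))) ∧ ∀ α : ℝ, 0 < α → α ∉ E →
      (∀ A : Finset ℤ, Odd A.card → 7 ≤ A.card → GenSet A → FermatSet A →
        Few q α (1 / 5) (fun d => {p : ℚ × ℚ | (d : ℚ) * p.2 ^ 2 = ∏ a ∈ A, (p.1 - a)}.ncard ≠ A.card)) ∧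
      (∀ g : ℕ, 3 ≤ g → Few q α (1 / 5) (fun d =>
        {p : ℚ × ℚ | (d : ℚ) * p.2 ^ 2 = p.1 * ∏ j ∈ range g, (p.1 ^ 2 - 9 ^ j)}.ncard ≠ 2 * g + 1)) ∧
      (∀ g : ℕ, 4 ≤ g → Few q α (1 / 5) (fun d =>
        {p : ℚ × ℚ | (d : ℚ) * p.2 ^ 2 = ∏ j ∈ range (2 * g + 1), (p.1 - j)}.ncard ≠ 2 * g + 1)) ∧
      (∀ (k : ℕ) (f : Fin k → ℤ[X]), Factors f → General f →
        (∃ δ : ℝ, 0 < δ ∧ Few q α δ (fun d => ∃ x w y : ℚ, Point f d x w y ∧ ¬ Const f x w)) ∧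
        ({t : ℚ | (∀ k, hom (f k) t 1 ≠ 0) ∧ Const f t 1}.Finite →
          ∃ δ : ℝ, 0 < δ ∧ Few q α δ (fun d => ∃ x w y : ℚ, Point f d x w y))) ∧
      (∀ (k : ℕ) (f : Fin k → ℤ[X]), Factors f → (∀ k, (f k).natDegree ≠ 1) →
        ∃ δ : ℝ, 0 < δ ∧ Few q α δ (fun d => ∃ x w y : ℚ, (x ≠ 0 ∨ w ≠ 0) ∧
          (d : ℚ) * y ^ 2 = ∏ k, hom (f k) x w)) ∧
      (∃ δ : ℝ, 0 < δ ∧ Few q α δ (fun d =>
        {p : ℚ × ℚ | (d : ℚ) * p.2 ^ 2 = p.1 ^ 5 - p.1} ≠ {(0, 0), (1, 0), (-1, 0)})) := by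
  classical
  have := countable_pol
  obtain ⟨t1, t2, t3⟩ := MP_10e784_ag.TwistsWithTrivialPoints.result
  obtain ⟨m1, m2, m3⟩ := MP_10e784_ag.TwistsWithMixedFactors.result
  obtain ⟨E1, d1, h1⟩ := exc_sqf (ι := Finset ℤ) q hq
    (fun A d => {p : ℚ × ℚ | (d : ℚ) * p.2 ^ 2 = ∏ a ∈ A, (p.1 - a)}.ncard ≠ A.card)
  obtain ⟨E2, d2, h2⟩ := exc_sqf (ι := ℕ) q hq
    (fun g d => {p : ℚ × ℚ | (d : ℚ) * p.2 ^ 2 = p.1 * ∏ j ∈ range g, (p.1 ^ 2 - 9 ^ j)}.ncard ≠ 2 * g + 1)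
  obtain ⟨E3, d3, h3⟩ := exc_sqf (ι := ℕ) q hq
    (fun g d => {p : ℚ × ℚ | (d : ℚ) * p.2 ^ 2 = ∏ j ∈ range (2 * g + 1), (p.1 - j)}.ncard ≠ 2 * g + 1)
  obtain ⟨E4, d4, h4⟩ := exc_sqf (ι := Σ k : ℕ, (Fin k → ℤ[X])) q hq
    (fun i d => ∃ x w y : ℚ, Point i.2 d x w y ∧ ¬ Const i.2 x w)
  obtain ⟨E5, d5, h5⟩ := exc_sqf (ι := Σ k : ℕ, (Fin k → ℤ[X])) q hq
    (fun i d => ∃ x w y : ℚ, Point i.2 d x w y)
  obtain ⟨E6, d6, h6⟩ := exc_sqf (ι := Σ k : ℕ, (Fin k → ℤ[X])) q hq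
    (fun i d => ∃ x w y : ℚ, (x ≠ 0 ∨ w ≠ 0) ∧ (d : ℚ) * y ^ 2 = ∏ k, hom (i.2 k) x w)
  obtain ⟨E7, d7, h7⟩ := exc_sqf (ι := Unit) q hq
    (fun _ d => {p : ℚ × ℚ | (d : ℚ) * p.2 ^ 2 = p.1 ^ 5 - p.1} ≠ {(0, 0), (1, 0), (-1, 0)})
  refine ⟨E1 ∪ (E2 ∪ (E3 ∪ (E4 ∪ (E5 ∪ (E6 ∪ E7))))), ?_, fun α hα hαE => ?_⟩
  · simp only [dimH_union]
    exact max_le d1 (max_le d2 (max_le d3 (max_le d4 (max_le d5 (max_le d6 d7)))))
  simp only [Set.mem_union, not_or] at hαE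
  obtain ⟨a1, a2, a3, a4, a5, a6, a7⟩ := hαE
  refine ⟨fun A hodd hc hG hF => ?_, fun g hg => ?_, fun g hg => ?_, fun k f hF hG => ⟨?_, fun hfin => ?_⟩,
    fun k f hF hl => ?_, ?_⟩
  · obtain ⟨C, hC⟩ := t1 A hodd hc hG hF
    obtain ⟨η, hη, h⟩ := h1 α hα a1 A
    obtain ⟨C', hC'⟩ := h (1 / 5) C (by norm_num) hC
    exact ⟨η, C', hη, hC'⟩
  · obtain ⟨C, hC⟩ := t2 g hg
    obtain ⟨η, hη, h⟩ := h2 α hα a2 g
    obtain ⟨C', hC'⟩ := h (1 / 5) C (by norm_num) hC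
    exact ⟨η, C', hη, hC'⟩
  · obtain ⟨C, hC⟩ := t3 g hg
    obtain ⟨η, hη, h⟩ := h3 α hα a3 g
    obtain ⟨C', hC'⟩ := h (1 / 5) C (by norm_num) hC
    exact ⟨η, C', hη, hC'⟩
  · obtain ⟨δ, hδ, C, hC⟩ := (m1 (Fin k) f hF hG).1
    obtain ⟨η, hη, h⟩ := h4 α hα a4 ⟨k, f⟩
    obtain ⟨C', hC'⟩ := h δ C hδ hC
    exact ⟨δ, hδ, η, C', hη, hC'⟩
  · obtain ⟨δ, hδ, C, hC⟩ := (m1 (Fin k) f hF hG).2 hfin
    obtain ⟨η, hη, h⟩ := h5 α hα a5 ⟨k, f⟩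
    obtain ⟨C', hC'⟩ := h δ C hδ hC
    exact ⟨δ, hδ, η, C', hη, hC'⟩
  · obtain ⟨δ, hδ, C, hC⟩ := m2 (Fin k) f hF hl
    obtain ⟨η, hη, h⟩ := h6 α hα a6 ⟨k, f⟩
    obtain ⟨C', hC'⟩ := h δ C hδ hC
    exact ⟨δ, hδ, η, C', hη, hC'⟩
  · obtain ⟨δ, hδ, C, hC⟩ := m3
    obtain ⟨η, hη, h⟩ := h7 α hα a7 ()
    obtain ⟨C', hC'⟩ := h δ C hδ hC
    exact ⟨δ, hδ, η, C', hη, hC'⟩

end Pool.Agent.Results.MP_10e784_ag.TwistsByRealMultiples
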